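import Pool.Agent.helper38.AT.Spec

set_option autoImplicit false

namespace Pool.Agent.AT

open Finset Real Pool.Agent.helper39.MT Pool.Agent.helper85.FC Pool.Agent.MK

/-- the forms `s i n + h i` are admissible -/
theorem KCO_adm {k : ℕ} (hk : 1 ≤ k) (a : Fin k → ℕ) (s : Fin k → ℕ) (h : Fin k → ℤ)
    (hs : ∀ i, a i * s i = ∏ j, a j)
    (hcop : ∀ i j, IsCoprime (h i) (a j : ℤ))
    (hcl : ∀ i j, (k.factorial : ℤ) ∣ h i - h j) :
    Adm fun i => (s i, h i) := by
  classical
  intro p hp
  have hpI : Prime (p : ℤ) := Nat.prime_iff_prime_int.1 hp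
  -- if p divides some slope then it divides no h
  have key : ∀ i j, (p : ℤ) ∣ (s i : ℤ) → ¬ (p : ℤ) ∣ h j := by
    intro i j h1 h2
    have h3 : p ∣ ∏ j, a j := by
      rw [← hs i]
      exact Dvd.dvd.mul_left (Int.natCast_dvd_natCast.1 h1) _
    obtain ⟨l, _, hl⟩ := (Prime.dvd_finset_prod_iff (Nat.prime_iff.1 hp) _).1 h3
    have h4 : (p : ℤ) ∣ (a l : ℤ) := Int.natCast_dvd_natCast.2 hl
    exact hpI.not_unit ((hcop j l).isUnit_of_dvd' h2 h4)
  by_cases hpk : p ≤ k
  · have hpd : (p : ℤ) ∣ (k.factorial : ℤ) := Int.natCast_dvd_natCast.2 (Nat.dvd_factorial hp.pos hpk)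
    by_cases h0 : (p : ℤ) ∣ h ⟨0, hk⟩
    · refine ⟨1, fun i hi => ?_⟩
      have h1 : (p : ℤ) ∣ h i := by
        have := (hpd.trans (hcl i ⟨0, hk⟩))
        exact (dvd_sub_left h0).1 this
      simp only [Nat.cast_one, mul_one] at hi
      have h2 : (p : ℤ) ∣ (s i : ℤ) := (dvd_add_left h1).1 hi
      exact key i i h2 h1
    · refine ⟨0, fun i hi => h0 ?_⟩
      simp only [Nat.cast_zero, mul_zero, zero_add] at hi
      have := (hpd.trans (hcl i ⟨0, hk⟩))
      exact (dvd_sub_right hi).1 this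
  · push Not at hpk
    by_contra hcon
    push Not at hcon
    choose g hg using hcon
    have hinj : Function.Injective fun n : Fin p => g (n : ℕ) := by
      intro n m hnm
      have hnm' : g (n : ℕ) = g (m : ℕ) := hnm
      have h1 := hg (n : ℕ)
      have h2 := hg (m : ℕ)
      rw [← hnm'] at h2
      have h3 := dvd_sub h1 h2
      have h4 : (p : ℤ) ∣ (s (g (n : ℕ)) : ℤ) * ((n : ℕ) - (m : ℕ) : ℤ) := by
        have e : ((s (g (n : ℕ)) : ℤ)) * ((n : ℕ) : ℤ) + h (g (n : ℕ)) -
            (((s (g (n : ℕ)) : ℤ)) * ((m : ℕ) : ℤ) + h (g (n : ℕ))) =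
            (s (g (n : ℕ)) : ℤ) * ((n : ℕ) - (m : ℕ) : ℤ) := by ring
        rw [← e]
        exact h3
      rcases hpI.dvd_or_dvd h4 with h5 | h5
      · exfalso
        refine key _ (g (n : ℕ)) h5 ?_
        exact (dvd_add_right (Dvd.dvd.mul_right h5 _)).1 h1
      · have hn := n.2
        have hm := m.2
        apply Fin.ext
        obtain ⟨c, hc⟩ := h5
        have hc0 : c = 0 := by
          by_contra hne
          have hp0 : (0 : ℤ) < p := by exact_mod_cast hp.pos
          have h6 : (p : ℤ) ≤ |(p : ℤ) * c| := by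
            rw [abs_mul, abs_of_pos hp0]
            exact le_mul_of_one_le_right hp0.le (Int.one_le_abs hne)
          rw [← hc] at h6
          have h7 : |(((n : ℕ) : ℤ) - ((m : ℕ) : ℤ))| < p := by
            rw [abs_lt]
            constructor <;> omega
          omega
        rw [hc0, mul_zero] at hc
        omega
    have := Fintype.card_le_of_injective _ hinj
    simp only [Fintype.card_fin] at this
    omega

theorem KCO : KCO_stmt := by
  classical
  intro k hk hB
  obtain ⟨K₀, hK₀⟩ := hB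
  refine ⟨k.factorial * K₀, fun a ha hainj H hH hcop => ?_⟩
  have hP : 0 < k.factorial := Nat.factorial_pos k
  haveI : NeZero k.factorial := ⟨hP.ne'⟩
  -- pigeonhole
  obtain ⟨y, _, hy⟩ := Finset.exists_le_card_fiber_of_mul_le_card_of_maps_to
    (s := H) (t := (Finset.univ : Finset (ZMod k.factorial))) (f := fun h : ℤ => (h : ZMod k.factorial)) (n := K₀)
    (fun _ _ => Finset.mem_univ _) Finset.univ_nonempty (by
      rw [Finset.card_univ, ZMod.card]
      exact hH)
  set H' : Finset ℤ := {x ∈ H | ((x : ℤ) : ZMod k.factorial) = y} with hH'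
  have hsub : ∀ x ∈ H', x ∈ H := fun x hx => (Finset.mem_filter.1 hx).1
  obtain ⟨s, hs⟩ : ∃ s : Fin k → ℕ, ∀ i, a i * s i = ∏ j, a j :=
    ⟨fun i => (∏ j, a j) / a i, fun i => Nat.mul_div_cancel' (Finset.dvd_prod_of_mem _ (Finset.mem_univ i))⟩
  have hApos : 0 < ∏ j, a j := Finset.prod_pos fun i _ => ha i
  have hspos : ∀ i, 0 < s i := by
    intro i
    rcases Nat.eq_zero_or_pos (s i) with h | h
    · have := hs i
      rw [h, mul_zero] at this
      omega
    · exact h
  have hsinj : Function.Injective s := by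
    intro i j hij
    have h1 := (hs i).trans (hs j).symm
    rw [hij] at h1
    exact hainj (Nat.eq_of_mul_eq_mul_right (hspos j) h1)
  obtain ⟨f, hf, hmany⟩ := hK₀ (fun i => H'.image fun h => (s i, h)) (by
      intro i
      rw [Finset.card_image_of_injective _ (fun x y hxy => (Prod.ext_iff.1 hxy).2)]
      exact hy) (by
      intro i g hg
      obtain ⟨h, _, rfl⟩ := Finset.mem_image.1 hg
      exact hspos i) (by
      intro g hg
      rw [Fintype.mem_piFinset] at hg
      have h1 : ∀ i, ∃ h ∈ H', (s i, h) = g i := fun i => Finset.mem_image.1 (hg i)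
      choose h hhm hhe using h1
      have e : g = fun i => (s i, h i) := by
        funext i
        exact (hhe i).symm
      subst e
      refine ⟨KCO_adm hk a s h hs (fun i j => hcop _ (hsub _ (hhm i)) j) ?_, ?_⟩
      · intro i j
        have h2 := (Finset.mem_filter.1 (hhm i)).2
        have h3 := (Finset.mem_filter.1 (hhm j)).2
        rw [← ZMod.intCast_zmod_eq_zero_iff_dvd] 
        push_cast
        rw [h2, h3, sub_self]
      · intro i j hij
        exact hsinj (Prod.ext_iff.1 hij).1)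
  rw [Fintype.mem_piFinset] at hf
  have h1 : ∀ i, ∃ h ∈ H', (s i, h) = f i := fun i => Finset.mem_image.1 (hf i)
  choose h hhm hhe using h1
  -- one set of indices occurs infinitely often
  obtain ⟨I, hI, hI2⟩ : ∃ I : Finset (Fin k), (1 / 4 + 1 / 500000 : ℝ) * k < #I ∧
      ∀ N : ℕ, ∃ n ≥ N, ({i : Fin k | (ev (f i) n).Prime} : Finset (Fin k)) = I := by
    by_contra hcon
    push Not at hcon
    have h3 : ∀ I : Finset (Fin k), ∃ N : ℕ, (1 / 4 + 1 / 500000 : ℝ) * k < #I →
        ∀ n ≥ N, ({i : Fin k | (ev (f i) n).Prime} : Finset (Fin k)) ≠ I := by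
      intro I
      by_cases hI : (1 / 4 + 1 / 500000 : ℝ) * k < #I
      · obtain ⟨N, hN⟩ := hcon I hI
        exact ⟨N, fun _ => hN⟩
      · exact ⟨0, fun h => absurd h hI⟩
    choose N hN using h3
    obtain ⟨n, hn, hn2⟩ := hmany (Finset.univ.sup N)
    exact hN _ hn2 n (le_trans (Finset.le_sup (Finset.mem_univ _)) hn) rfl
  refine ⟨I, h, hI, fun i => hsub _ (hhm i), fun B => ?_⟩
  obtain ⟨n, hn, hn2⟩ := hI2 B
  refine ⟨((∏ j, a j : ℕ) : ℤ) * n, ?_, ?_⟩
  · have h4 : n ≤ (∏ j, a j) * n := Nat.le_mul_of_pos_left _ hApos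
    have h5 : B ≤ (∏ j, a j) * n := le_trans hn h4
    exact_mod_cast h5
  · intro i hi
    rw [← hn2] at hi
    have hpr := (Finset.mem_filter.1 hi).2
    refine ⟨ev (f i) n, hpr, ?_⟩
    have hpos := hpr.pos
    have e1 : ((ev (f i) n : ℕ) : ℤ) = (s i : ℤ) * n + h i := by
      rw [← hhe i] at hpos ⊢
      unfold ev at hpos ⊢
      simp only at hpos ⊢
      omega
    rw [e1, ← hs i]
    push_cast
    ring

end Pool.Agent.AT
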